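import Pool.Agent.V5helper79.PQ.Stm

set_option autoImplicit false

/-! # Project PQ, job LOC: the diagonals of a spherical quadrilateral with fixed sides -/

namespace Pool.Agent.V5helper38.PQ

open Pool.Agent.R118.PM Filter Topology
open scoped RealInnerProductSpace

theorem norm_sq_diff (v w : Fin 4 → E3) (hn : ∀ k, ‖w k‖ = ‖v k‖)
    (hi : ∀ k, ⟪w k, w (k + 1)⟫ = ⟪v k, v (k + 1)⟫) (μ : Fin 4 → ℝ) :
    ‖∑ k, μ k • w k‖ ^ 2 - ‖∑ k, μ k • v k‖ ^ 2 =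
      2 * (μ 0 * μ 2) * (⟪w 0, w 2⟫ - ⟪v 0, v 2⟫) + 2 * (μ 1 * μ 3) * (⟪w 1, w 3⟫ - ⟪v 1, v 3⟫) := by
  have hexp : ∀ x : Fin 4 → E3, ‖∑ k, μ k • x k‖ ^ 2 = ∑ k, ∑ l, μ k * μ l * ⟪x k, x l⟫ := by
    intro x
    rw [← real_inner_self_eq_norm_sq, sum_inner]
    refine Finset.sum_congr rfl fun k _ => ?_
    rw [inner_sum]
    refine Finset.sum_congr rfl fun l _ => ?_
    rw [real_inner_smul_left, real_inner_smul_right]
    ring
  have hd : ∀ k, ⟪w k, w k⟫ = ⟪v k, v k⟫ := by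
    intro k
    rw [real_inner_self_eq_norm_sq, real_inner_self_eq_norm_sq, hn]
  have h0 := hi 0
  have h1 := hi 1
  have h2 := hi 2
  have h3 := hi 3
  have e1 : (0 : Fin 4) + 1 = 1 := rfl
  have e2 : (1 : Fin 4) + 1 = 2 := rfl
  have e3 : (2 : Fin 4) + 1 = 3 := rfl
  have e4 : (3 : Fin 4) + 1 = 0 := rfl
  rw [e1] at h0
  rw [e2] at h1
  rw [e3] at h2
  rw [e4] at h3
  rw [hexp, hexp]
  simp only [Fin.sum_univ_four]
  rw [real_inner_comm (w 0) (w 1), real_inner_comm (w 1) (w 2), real_inner_comm (w 2) (w 3),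
    real_inner_comm (w 3) (w 0), real_inner_comm (w 0) (w 2), real_inner_comm (w 1) (w 3),
    real_inner_comm (v 0) (v 1), real_inner_comm (v 1) (v 2), real_inner_comm (v 2) (v 3),
    real_inner_comm (v 3) (v 0), real_inner_comm (v 0) (v 2), real_inner_comm (v 1) (v 3)]
  linear_combination (μ 0 * μ 0) * hd 0 + (μ 1 * μ 1) * hd 1 + (μ 2 * μ 2) * hd 2 + (μ 3 * μ 3) * hd 3 +
    2 * (μ 0 * μ 1) * h0 + 2 * (μ 1 * μ 2) * h1 + 2 * (μ 2 * μ 3) * h2 + 2 * (μ 3 * μ 0) * h3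

theorem exists_rel (v : Fin 4 → E3) : ∃ μ : Fin 4 → ℝ, μ ≠ 0 ∧ ∑ k, μ k • v k = 0 := by
  have h : ¬ LinearIndependent ℝ v := by
    intro h
    have := h.fintype_card_le_finrank
    have e : Module.finrank ℝ E3 = 3 := by simp [E3]
    rw [e] at this
    simp at this
  obtain ⟨g, hg, i, hi⟩ := Fintype.not_linearIndependent_iff.1 h
  exact ⟨g, fun h0 => hi (by rw [h0]; rfl), hg⟩

theorem t_LOC : Pool.Agent.V5helper79.PQ.S_LOC := by
  intro q Q t0 hq hQ hn hi hA hB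
  have hne : ∀ μ : Fin 4 → ℝ, μ ≠ 0 → ¬ (0 < μ 0 * μ 2 ∧ 0 < μ 1 * μ 3) → ∑ k, μ k • Q t0 k ≠ 0 := by
    intro μ hμ hμ2 h0
    have h1 := norm_sq_diff q (Q t0) (hn t0) (hi t0) μ
    rw [hA, hB, h0] at h1
    have h2 : ‖∑ k, μ k • q k‖ ^ 2 = 0 := by
      simp only [norm_zero] at h1
      linarith
    have h3 : ∑ k, μ k • q k = 0 := by
      rw [← norm_eq_zero]
      exact pow_eq_zero_iff (two_ne_zero) |>.1 h2
    exact hμ2 (hq μ h3 hμ)
  set K : Set (Fin 4 → ℝ) := Metric.sphere 0 1 ∩ ({μ | μ 0 * μ 2 ≤ 0} ∪ {μ | μ 1 * μ 3 ≤ 0}) with hK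
  have hKc : IsCompact K := by
    refine (isCompact_sphere _ _).inter_right ((isClosed_le ?_ continuous_const).union
      (isClosed_le ?_ continuous_const)) <;> fun_prop
  have hcont : Continuous fun z : unitInterval × (Fin 4 → ℝ) => ∑ k, z.2 k • Q z.1 k := by
    refine continuous_finsetSum _ fun k _ => ?_
    exact ((continuous_apply k).comp continuous_snd).smul ((hQ k).comp continuous_fst)
  have hev : ∀ᶠ t in 𝓝 t0, ∀ μ ∈ K, ∑ k, μ k • Q t k ≠ 0 := by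
    refine hKc.eventually_forall_of_forall_eventually fun μ hμ => ?_
    refine hcont.continuousAt.eventually_ne ?_
    refine hne μ ?_ ?_
    · rintro rfl
      have := hμ.1
      simp at this
    · rintro ⟨h1, h2⟩
      rcases hμ.2 with h | h
      · exact absurd h (not_le.2 h1)
      · exact absurd h (not_le.2 h2)
  obtain ⟨ν, hν0, hν⟩ := exists_rel q
  obtain ⟨hν1, hν2⟩ := hq ν hν hν0
  filter_upwards [hev] with t ht
  obtain ⟨μ', hμ'0, hμ'⟩ := exists_rel (Q t)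
  have hμn : ‖μ'‖ ≠ 0 := norm_ne_zero_iff.2 hμ'0
  obtain ⟨μ, hμd⟩ : ∃ μ : Fin 4 → ℝ, μ = ‖μ'‖⁻¹ • μ' := ⟨_, rfl⟩
  have hμ : ∑ k, μ k • Q t k = 0 := by
    rw [hμd]
    simp only [Pi.smul_apply, smul_eq_mul, mul_smul]
    rw [← Finset.smul_sum, hμ', smul_zero]
  have hμs : μ ∈ Metric.sphere (0 : Fin 4 → ℝ) 1 := by
    rw [mem_sphere_zero_iff_norm, hμd, norm_smul, norm_inv, norm_norm, inv_mul_cancel₀ hμn]
  have hμK : μ ∉ K := fun h => ht μ h hμ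
  have hμ1 : 0 < μ 0 * μ 2 := by
    by_contra h
    exact hμK ⟨hμs, Or.inl (not_lt.1 h)⟩
  have hμ2 : 0 < μ 1 * μ 3 := by
    by_contra h
    exact hμK ⟨hμs, Or.inr (not_lt.1 h)⟩
  have h1 := norm_sq_diff q (Q t) (hn t) (hi t) μ
  have h2 := norm_sq_diff q (Q t) (hn t) (hi t) ν
  rw [hμ] at h1
  rw [hν] at h2
  simp only [norm_zero] at h1 h2
  have h3 := sq_nonneg ‖∑ k, μ k • q k‖
  have h4 := sq_nonneg ‖∑ k, ν k • Q t k‖
  obtain ⟨A, hAd⟩ : ∃ A, A = ⟪Q t 0, Q t 2⟫ - ⟪q 0, q 2⟫ := ⟨_, rfl⟩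
  obtain ⟨B, hBd⟩ : ∃ B, B = ⟪Q t 1, Q t 3⟫ - ⟪q 1, q 3⟫ := ⟨_, rfl⟩
  rw [← hAd, ← hBd] at h1 h2 ⊢
  have h5 : μ 0 * μ 2 * A + μ 1 * μ 3 * B ≤ 0 := by linarith
  have h6 : 0 ≤ ν 0 * ν 2 * A + ν 1 * ν 3 * B := by linarith
  rcases lt_trichotomy A 0 with h | h | h
  · have hB' : 0 < B := by
      by_contra hc
      have h7 : ν 0 * ν 2 * A < 0 := mul_neg_of_pos_of_neg hν1 h
      have h8 : ν 1 * ν 3 * B ≤ 0 := mul_nonpos_of_nonneg_of_nonpos hν2.le (not_lt.1 hc)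
      linarith
    rw [sign_neg h, sign_pos hB']
  · have hB' : B = 0 := by
      rw [h] at h5 h6
      apply le_antisymm
      · by_contra hc
        have := mul_pos hμ2 (not_le.1 hc)
        linarith
      · by_contra hc
        have := mul_neg_of_pos_of_neg hν2 (not_le.1 hc)
        linarith
    rw [h, hB', sign_zero]
    rfl
  · have hB' : B < 0 := by
      by_contra hc
      have h7 : 0 < μ 0 * μ 2 * A := mul_pos hμ1 h
      have h8 : 0 ≤ μ 1 * μ 3 * B := mul_nonneg hμ2.le (not_lt.1 hc)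
      linarith
    rw [sign_pos h, sign_neg hB']
    rfl

end Pool.Agent.V5helper38.PQ
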